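import Mathlib

/-! Volumes of Euclidean balls in all dimensions and inequalities for them. -/

set_option autoImplicit false

open MeasureTheory Metric Set

namespace Pool.Agent.Y330.P

/-- the volume of the unit ball of `ℝ^n` -/
noncomputable def kap (n : ℕ) : ℝ := √Real.pi ^ n / Real.Gamma (n / 2 + 1)

lemma gam_pos (n : ℕ) : 0 < Real.Gamma ((n : ℝ) / 2 + 1) := Real.Gamma_pos_of_pos (by positivity)

lemma kap_pos (n : ℕ) : 0 < kap n := by
  have := gam_pos n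
  have := Real.pi_pos
  unfold kap
  positivity

/-- duplication formula -/
lemma dupl (n : ℕ) : Real.Gamma (((n : ℝ) + 1) / 2) * Real.Gamma ((n : ℝ) / 2 + 1) =
    n.factorial * √Real.pi / 2 ^ n := by
  have h := Real.Gamma_mul_Gamma_add_half (((n : ℝ) + 1) / 2)
  rw [show ((n : ℝ) + 1) / 2 + 1 / 2 = (n : ℝ) / 2 + 1 by ring,
    show 2 * (((n : ℝ) + 1) / 2) = (n : ℝ) + 1 by ring, Real.Gamma_nat_eq_factorial,
    show 1 - ((n : ℝ) + 1) = -(n : ℝ) by ring, Real.rpow_neg (by norm_num),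
    Real.rpow_natCast] at h
  rw [h]
  field_simp

lemma log_conv {s : ℝ} (hs : 0 < s) :
    Real.Gamma (s + 1 / 2) ^ 2 ≤ s * Real.Gamma s ^ 2 := by
  have h := Real.Gamma_mul_add_mul_le_rpow_Gamma_mul_rpow_Gamma (s := s) (t := s + 1)
    (a := 1 / 2) (b := 1 / 2) hs (by linarith) (by norm_num) (by norm_num) (by norm_num)
  rw [show 1 / 2 * s + 1 / 2 * (s + 1) = s + 1 / 2 by ring, ← Real.sqrt_eq_rpow,
    ← Real.sqrt_eq_rpow, Real.Gamma_add_one hs.ne'] at h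
  have hg := Real.Gamma_pos_of_pos hs
  have h0 : 0 ≤ Real.Gamma (s + 1 / 2) := (Real.Gamma_pos_of_pos (by linarith)).le
  calc Real.Gamma (s + 1 / 2) ^ 2 ≤ (√(Real.Gamma s) * √(s * Real.Gamma s)) ^ 2 :=
        pow_le_pow_left₀ h0 h 2
    _ = s * Real.Gamma s ^ 2 := by
        rw [mul_pow, Real.sq_sqrt hg.le, Real.sq_sqrt (by positivity)]
        ring

/-- `2^N / (N! κ_N²) ≤ N / π^N` -/
lemma central {N : ℕ} (hN : 3 ≤ N) :
    (2 : ℝ) ^ N / N.factorial / kap N ^ 2 ≤ N / Real.pi ^ N := by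
  have hpi := Real.pi_pos
  have hg := gam_pos N
  have hN' : (3 : ℝ) ≤ N := by exact_mod_cast hN
  have hg2 : 0 < Real.Gamma (((N : ℝ) + 1) / 2) := Real.Gamma_pos_of_pos (by positivity)
  have hd := dupl N
  have hl := log_conv (s := ((N : ℝ) + 1) / 2) (by positivity)
  rw [show ((N : ℝ) + 1) / 2 + 1 / 2 = (N : ℝ) / 2 + 1 by ring] at hl
  set x := Real.Gamma ((N : ℝ) / 2 + 1) with hx
  set y := Real.Gamma (((N : ℝ) + 1) / 2) with hy
  have hf : (0 : ℝ) < N.factorial := by positivity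
  have hkap : kap N ^ 2 = Real.pi ^ N / x ^ 2 := by
    unfold kap
    rw [← hx, div_pow, ← pow_mul, mul_comm N 2, pow_mul, Real.sq_sqrt hpi.le]
  rw [hkap]
  -- `N! / 2 ^ N = y x / √π`
  have hfac : (N.factorial : ℝ) / 2 ^ N = y * x / √Real.pi := by
    have hs : (0 : ℝ) < √Real.pi := Real.sqrt_pos.2 hpi
    rw [hd]
    field_simp
  have h1 : (2 : ℝ) ^ N / N.factorial = √Real.pi / (y * x) := by
    rw [← inv_div (N.factorial : ℝ), hfac, inv_div]
  rw [h1]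
  have hxy : x ≤ √(((N : ℝ) + 1) / 2) * y := by
    refine le_of_sq_le_sq ?_ (by positivity)
    rw [mul_pow, Real.sq_sqrt (by positivity)]
    exact hl
  have hs : √Real.pi * √(((N : ℝ) + 1) / 2) ≤ N := by
    rw [← Real.sqrt_mul hpi.le]
    refine Real.sqrt_le_iff.2 ⟨by positivity, ?_⟩
    have := Real.pi_lt_d2
    nlinarith
  have : √Real.pi / (y * x) / (Real.pi ^ N / x ^ 2) = (√Real.pi * x / y) / Real.pi ^ N := by
    field_simp
  rw [this]
  gcongr
  rw [div_le_iff₀ hg2]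
  calc √Real.pi * x ≤ √Real.pi * (√(((N : ℝ) + 1) / 2) * y) := by gcongr
    _ = (√Real.pi * √(((N : ℝ) + 1) / 2)) * y := by ring
    _ ≤ N * y := by gcongr

/-- `κ_n² ≤ (2 π)^n / n!` -/
lemma kap_sq {n : ℕ} (hn : 1 ≤ n) : kap n ^ 2 ≤ (2 * Real.pi) ^ n / n.factorial := by
  have hpi := Real.pi_pos
  have hg := gam_pos n
  have hn' : (1 : ℝ) ≤ n := by exact_mod_cast hn
  have hg2 : 0 < Real.Gamma (((n : ℝ) + 1) / 2) := Real.Gamma_pos_of_pos (by positivity)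
  have hd := dupl n
  have hl := log_conv (s := (n : ℝ) / 2) (by positivity)
  rw [show (n : ℝ) / 2 + 1 / 2 = ((n : ℝ) + 1) / 2 by ring] at hl
  have hrec := Real.Gamma_add_one (s := (n : ℝ) / 2) (by positivity)
  set x := Real.Gamma ((n : ℝ) / 2 + 1) with hx
  set y := Real.Gamma (((n : ℝ) + 1) / 2) with hy
  set z := Real.Gamma ((n : ℝ) / 2) with hz
  have hf : (0 : ℝ) < n.factorial := by positivity
  have hkap : kap n ^ 2 = Real.pi ^ n / x ^ 2 := by
    unfold kap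
    rw [← hx, div_pow, ← pow_mul, mul_comm n 2, pow_mul, Real.sq_sqrt hpi.le]
  -- `y² ≤ (n/2) z² = (2/n) x²`
  have h1 : y ^ 2 ≤ 2 / n * x ^ 2 := by
    refine hl.trans (le_of_eq ?_)
    rw [hrec]
    field_simp
  have hs : (0 : ℝ) < √Real.pi := Real.sqrt_pos.2 hpi
  -- `(n!/2^n)² π = (y x)² ≤ (2/n) x⁴`
  have h2 : ((n.factorial : ℝ) / 2 ^ n) ^ 2 ≤ (x ^ 2) ^ 2 := by
    have h3 : ((n.factorial : ℝ) / 2 ^ n) ^ 2 * Real.pi = (y * x) ^ 2 := by
      rw [hd, div_pow, div_pow, mul_pow, Real.sq_sqrt hpi.le]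
      ring
    have h4 : ((n.factorial : ℝ) / 2 ^ n) ^ 2 * Real.pi ≤ 2 / n * (x ^ 2) ^ 2 := by
      rw [h3, mul_pow]
      calc y ^ 2 * x ^ 2 ≤ (2 / n * x ^ 2) * x ^ 2 := by gcongr
        _ = _ := by ring
    have h5 : 2 / (n : ℝ) * (x ^ 2) ^ 2 ≤ Real.pi * (x ^ 2) ^ 2 := by
      gcongr
      rw [div_le_iff₀ (by positivity)]
      have := Real.pi_gt_three
      nlinarith
    have h6 := h4.trans h5
    rw [mul_comm] at h6
    exact le_of_mul_le_mul_left h6 hpi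
  have h7 : (n.factorial : ℝ) / 2 ^ n ≤ x ^ 2 := le_of_sq_le_sq h2 (by positivity)
  rw [hkap, mul_pow, mul_comm ((2 : ℝ) ^ n), mul_div_assoc, div_eq_mul_inv]
  gcongr
  rw [← inv_div (n.factorial : ℝ)]
  exact inv_anti₀ (by positivity) h7

/-- the main inequality for the constant `√n / 4` -/
lemma const_ineq {n : ℕ} (hn : 1 ≤ n) :
    (√(n : ℝ) / 4 * (3 / 2)) ^ n * kap n ≤ 1 / 2 * Real.pi ^ n := by
  have hpi := Real.pi_pos
  have hn' : (1 : ℝ) ≤ n := by exact_mod_cast hn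
  have hk := kap_pos n
  refine le_of_sq_le_sq ?_ (by positivity)
  rw [mul_pow, ← pow_mul, mul_comm n 2, pow_mul, mul_pow, div_pow, Real.sq_sqrt (by positivity)]
  have h1 := kap_sq hn
  have h2 := Real.pow_div_factorial_le_exp (x := (n : ℝ)) (by positivity) n
  have h3 : Real.exp (n : ℝ) = Real.exp 1 ^ n := by
    rw [← Real.exp_nat_mul, mul_one]
  rw [h3] at h2
  have hf : (0 : ℝ) < n.factorial := by positivity
  calc ((n : ℝ) / 4 ^ 2 * (3 / 2) ^ 2) ^ n * kap n ^ 2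
      ≤ ((n : ℝ) / 4 ^ 2 * (3 / 2) ^ 2) ^ n * ((2 * Real.pi) ^ n / n.factorial) := by gcongr
    _ = (9 / 32 * Real.pi) ^ n * ((n : ℝ) ^ n / n.factorial) := by
        rw [← mul_div_assoc, ← mul_pow, ← mul_div_assoc, ← mul_pow]
        congr 2
        ring
    _ ≤ (9 / 32 * Real.pi) ^ n * Real.exp 1 ^ n := by gcongr
    _ = (9 / 32 * Real.pi * Real.exp 1) ^ n := by rw [← mul_pow]
    _ ≤ (1 / 4 * Real.pi ^ 2) ^ n := by
        have h4 := Real.exp_one_lt_d9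
        have h5 := Real.pi_gt_d2
        have h6 : 9 / 32 * Real.exp 1 ≤ 1 / 4 * Real.pi := by linarith
        refine pow_le_pow_left₀ (by positivity) ?_ n
        calc 9 / 32 * Real.pi * Real.exp 1 = Real.pi * (9 / 32 * Real.exp 1) := by ring
          _ ≤ Real.pi * (1 / 4 * Real.pi) := by gcongr
          _ = _ := by ring
    _ = (1 / 4) ^ n * (Real.pi ^ 2) ^ n := by rw [mul_pow]
    _ ≤ (1 / 4) ^ 1 * (Real.pi ^ 2) ^ n := by
        gcongr ?_ * _
        exact pow_le_pow_of_le_one (by norm_num) (by norm_num) hn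
    _ = (1 / 2 * Real.pi ^ n) ^ 2 := by
        rw [mul_pow, ← pow_mul, ← pow_mul, mul_comm n 2]
        norm_num

end Pool.Agent.Y330.P
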