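import Pool.Agent.Y330.P.A1
import Pool.Agent.Results.MP_ed9c69_gt.CrossPolytope

/-! Bounds for the averages in all dimensions. -/

set_option autoImplicit false

open MeasureTheory Metric Set
open Pool.Agent.Results.MP_ed9c69_gt.CrossPolytope

namespace Pool.Agent.Y330.P

lemma kap_eq (n : ℕ) : √Real.pi ^ n / Real.Gamma (n / 2 + 1) = kap n := rfl

/-- projections of a ball -/
lemma projVol_ball' {N n : ℕ} (hn : 1 ≤ n) {ρ : ℝ} (v : Fin n → E N)
    (hv : LinearIndependent ℝ v) :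
    projVol (closedBall (0 : E N) ρ) v ≤ ENNReal.ofReal ρ ^ n * ENNReal.ofReal (kap n) := by
  unfold projVol shadowVol shadow
  set F := Submodule.span ℝ (Set.range v) with hF
  have hfin : Module.finrank ℝ F = n := by
    rw [hF, finrank_span_eq_card hv, Fintype.card_fin]
  have hnt : Nontrivial F := Module.nontrivial_of_finrank_pos (R := ℝ) (by omega)
  calc volume (F.orthogonalProjectionOnto '' closedBall 0 ρ) ≤ volume (closedBall (0 : F) ρ) := by
        apply measure_mono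
        rintro _ ⟨x, hx, rfl⟩
        rw [mem_closedBall, dist_zero_right] at hx ⊢
        exact (F.norm_orthogonalProjectionOnto_apply_le x).trans hx
    _ = _ := by
        rw [InnerProductSpace.volume_closedBall, hfin, kap_eq]

/-- lower bound for the average for a set contained in a ball -/
lemma average_lower' {N n : ℕ} (hn : 1 ≤ n) (hnN : n ≤ N) {ρ : ℝ} (hρ : 0 < ρ)
    {K : Set (E N)} (hK : K ⊆ closedBall 0 ρ) :
    ENNReal.ofReal (((ρ ^ n * kap n) ^ N)⁻¹) ≤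
      (∫⁻ v in Balls N n, (projVol K v) ^ (-(N : ℝ))) / volume (Balls N n) := by
  have hk := kap_pos n
  have hV0 : volume (Balls N n) ≠ 0 := by
    rw [volume_Balls]
    exact pow_ne_zero _ (measure_ball_pos _ _ one_pos).ne'
  have hVt : volume (Balls N n) ≠ ⊤ := by
    rw [volume_Balls]
    exact ENNReal.pow_ne_top measure_ball_lt_top.ne
  rw [ENNReal.le_div_iff_mul_le (Or.inl hV0) (Or.inl hVt), ← setLIntegral_const]
  refine lintegral_mono_ae ?_
  filter_upwards [ae_restrict_of_ae (ae_indep hnN)] with v hv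
  have h1 : projVol K v ≤ ENNReal.ofReal (ρ ^ n * kap n) := by
    calc projVol K v ≤ projVol (closedBall (0 : E N) ρ) v :=
          measure_mono (Set.image_mono hK)
      _ ≤ _ := projVol_ball' hn v hv
      _ = _ := by
          rw [← ENNReal.ofReal_pow hρ.le, ← ENNReal.ofReal_mul (by positivity)]
  rw [ENNReal.rpow_neg, ENNReal.rpow_natCast, ENNReal.ofReal_inv_of_pos (by positivity),
    ENNReal.ofReal_pow (by positivity)]
  exact ENNReal.inv_le_inv.2 (pow_le_pow_left' h1 N)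

lemma average_upper' {N n : ℕ} (hn : 1 ≤ n) (hN1 : 1 ≤ N)
    (hN : Fintype.card (JJ n) ≤ N) {r : ℝ} (hr : 0 < r) :
    (∫⁻ v in Balls N n, (projVol (cross N r) v) ^ (-(N : ℝ))) / volume (Balls N n) ≤
    ENNReal.ofReal (((N : ℝ)) ^ Fintype.card (JJ n) *
      ((((n.factorial : ℝ) ^ 2 * (N : ℝ) ^ n / 2 ^ n) ^
        Fintype.card (JJ n) * ((r ^ n) ^ N)⁻¹) *
        ((3 / 2) ^ (n * N) * (2 ^ n) ^ Fintype.card (JJ n))) /
        kap N ^ n) := by
  have hk := kap_pos N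
  have hV : volume (Balls N n) = ENNReal.ofReal (kap N ^ n) := by
    rw [volume_Balls]
    have hnt : Nontrivial (E N) :=
      Module.nontrivial_of_finrank_pos (R := ℝ) (by rw [finrank_euclideanSpace_fin]; omega)
    rw [InnerProductSpace.volume_ball, finrank_euclideanSpace_fin, kap_eq]
    rw [ENNReal.ofReal_one, one_pow, one_mul, ENNReal.ofReal_pow (by positivity)]
  rw [hV, ENNReal.ofReal_div_of_pos (by positivity)]
  refine ENNReal.div_le_div_right ?_ _
  refine (integral_bound hn hN hr).trans (le_of_eq ?_)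
  rw [cc_eq _ _ hn]
  exact bookkeeping N n _ (by positivity) hr

lemma params' {n N m : ℕ} (hn : 1 ≤ n) (hN : 3 ≤ N)
    (h2 : (N : ℝ) ^ m * ((((n.factorial : ℝ) ^ 2 * (N : ℝ) ^ n) ^ m) *
      ((1 / 2) ^ N * (N : ℝ) ^ n)) < 1)
    {r ρ : ℝ} (hρ : 0 < ρ) (hr : 0 < r) (hrN : r ^ N = N.factorial / 2 ^ N)
    (hρN : ρ ^ N = 1 / kap N) :
    (√(n : ℝ) / 4) ^ (n * N) * ((N : ℝ) ^ m *
      ((((n.factorial : ℝ) ^ 2 * (N : ℝ) ^ n / 2 ^ n) ^
        m * ((r ^ n) ^ N)⁻¹) *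
        ((3 / 2) ^ (n * N) * (2 ^ n) ^ m)) /
        kap N ^ n) <
    ((ρ ^ n * kap n) ^ N)⁻¹ := by
  have hpi := Real.pi_pos
  have hkN := kap_pos N
  have hkn := kap_pos n
  have hN0 : (0 : ℝ) < N := by exact_mod_cast (by omega : 0 < N)
  have hn0 : (0 : ℝ) < n := by exact_mod_cast (by omega : 0 < n)
  set C : ℝ := √(n : ℝ) / 4 with hC
  have hC0 : 0 < C := by positivity
  have h1 := const_ineq hn
  rw [← hC] at h1
  have hrr : (r ^ n) ^ N = (N.factorial / 2 ^ N) ^ n := by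
    rw [← pow_mul, mul_comm, pow_mul, hrN]
  have hρρ : (ρ ^ n) ^ N = (1 / kap N) ^ n := by
    rw [← pow_mul, mul_comm, pow_mul, hρN]
  have e1 : C ^ (n * N) * ((N : ℝ) ^ m *
      ((((n.factorial : ℝ) ^ 2 * (N : ℝ) ^ n / 2 ^ n) ^
        m * ((r ^ n) ^ N)⁻¹) *
        ((3 / 2) ^ (n * N) * (2 ^ n) ^ m)) /
        kap N ^ n) *
      ((ρ ^ n * kap n) ^ N) =
      ((N : ℝ) ^ m * ((n.factorial : ℝ) ^ 2 * (N : ℝ) ^ n) ^ m) *
      ((C * (3 / 2)) ^ n * kap n) ^ N *
      ((2 : ℝ) ^ N / N.factorial / kap N ^ 2) ^ n := by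
    rw [mul_pow (ρ ^ n), hρρ, hrr, pow_mul C, pow_mul (3 / 2 : ℝ), mul_pow C,
      mul_pow (C ^ n * _), mul_pow (C ^ n), div_pow (((n.factorial : ℝ)) ^ 2 * (N : ℝ) ^ n)]
    have f1 : (N.factorial : ℝ) ≠ 0 := by positivity
    have f2 : (n.factorial : ℝ) ≠ 0 := by positivity
    have f3 := hkN.ne'
    have f4 := hkn.ne'
    have f5 : ((2 : ℝ) ^ n) ^ m ≠ 0 := by positivity
    rw [div_pow (2 ^ N / (N.factorial : ℝ)), div_pow (2 ^ N) (N.factorial : ℝ),
      div_pow (N.factorial : ℝ) (2 ^ N), ← pow_mul (kap N) 2 n, mul_comm 2 n, pow_mul (kap N) n 2,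
      div_pow 1 (kap N)]
    field_simp
    try ring
  have hD : 0 < (ρ ^ n * kap n) ^ N := by positivity
  rw [← mul_lt_mul_iff_left₀ hD, e1, inv_mul_cancel₀ hD.ne']
  refine lt_of_le_of_lt ?_ h2
  have h3 := central hN
  calc ((N : ℝ) ^ m * ((n.factorial : ℝ) ^ 2 * (N : ℝ) ^ n) ^ m) *
      ((C * (3 / 2)) ^ n * kap n) ^ N *
      ((2 : ℝ) ^ N / N.factorial / kap N ^ 2) ^ n
      ≤ ((N : ℝ) ^ m * ((n.factorial : ℝ) ^ 2 * (N : ℝ) ^ n) ^ m) *
      (1 / 2 * Real.pi ^ n) ^ N * (N / Real.pi ^ N) ^ n := by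
        gcongr
    _ = _ := by
        rw [mul_pow (1 / 2 : ℝ), div_pow (N : ℝ), ← pow_mul Real.pi n, ← pow_mul Real.pi N,
          mul_comm N n]
        field_simp

lemma ball_vol' {N : ℕ} (hN : 1 ≤ N) {ρ : ℝ} (hρ : 0 < ρ) (hρN : ρ ^ N = 1 / kap N) :
    volume (closedBall (0 : E N) ρ) = 1 := by
  have hk := kap_pos N
  have hnt : Nontrivial (E N) :=
    Module.nontrivial_of_finrank_pos (R := ℝ) (by rw [finrank_euclideanSpace_fin]; omega)
  rw [InnerProductSpace.volume_closedBall, finrank_euclideanSpace_fin, kap_eq,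
    ← ENNReal.ofReal_pow hρ.le, hρN, ← ENNReal.ofReal_mul (by positivity),
    one_div_mul_cancel hk.ne', ENNReal.ofReal_one]

end Pool.Agent.Y330.P
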