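import Pool.Agent.Y330.P.A2

/-! The volume-one cross-polytope in all dimensions `n` and all large dimensions `N`. -/

set_option autoImplicit false

open MeasureTheory Metric Set Filter Topology
open Pool.Agent.Results.MP_ed9c69_gt.CrossPolytope

namespace Pool.Agent.Y330.P

lemma card_JJ (n : ℕ) : Fintype.card (JJ n) = n + (4 * n + 1) ^ n := by
  simp [JJ]

lemma nat_bound {n : ℕ} (hn : 1 ≤ n) :
    3 * ((n + (4 * n + 1) ^ n) * (n + 2) + n) ≤ (12 * n) ^ (2 * n) := by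
  have hP1 : (4 * n + 1) ^ n ≤ (5 * n) ^ n := Nat.pow_le_pow_left (by omega) n
  have hP2 : n ≤ (5 * n) ^ n := by
    calc n ≤ (5 * n) ^ 1 := by rw [pow_one]; omega
      _ ≤ (5 * n) ^ n := Nat.pow_le_pow_right (by omega) hn
  set P := (5 * n) ^ n with hP
  have h1 : (n + (4 * n + 1) ^ n) * (n + 2) + n ≤ P * (7 * n) := by
    calc (n + (4 * n + 1) ^ n) * (n + 2) + n ≤ (P + P) * (n + 2) + P := by gcongr
      _ = P * (2 * n + 5) := by ring
      _ ≤ P * (7 * n) := by gcongr; omega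
  calc 3 * ((n + (4 * n + 1) ^ n) * (n + 2) + n) ≤ 3 * (P * (7 * n)) := by gcongr
    _ = P * (21 * n) ^ 1 := by ring
    _ ≤ P * (21 * n) ^ n := Nat.mul_le_mul_left P (Nat.pow_le_pow_right (by omega) hn)
    _ = (105 * n ^ 2) ^ n := by rw [hP, ← mul_pow]; ring
    _ ≤ (144 * n ^ 2) ^ n := by gcongr; norm_num
    _ = (12 * n) ^ (2 * n) := by rw [pow_mul]; ring

lemma nat_bound2 {n N : ℕ} (hn : 1 ≤ n) (hN : (12 * n) ^ (4 * n) ≤ N) :
    9 * ((n + (4 * n + 1) ^ n) * (n + 2) + n) ^ 2 ≤ N ∧ n.factorial ^ 2 ≤ N := by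
  have h1 := nat_bound hn
  have h2 : (12 * n) ^ (4 * n) = ((12 * n) ^ (2 * n)) ^ 2 := by
    rw [← pow_mul]
    congr 1
    ring
  constructor
  · refine le_trans ?_ hN
    rw [h2]
    calc 9 * ((n + (4 * n + 1) ^ n) * (n + 2) + n) ^ 2
        = (3 * ((n + (4 * n + 1) ^ n) * (n + 2) + n)) ^ 2 := by ring
      _ ≤ _ := Nat.pow_le_pow_left h1 2
  · refine le_trans ?_ hN
    rw [h2]
    refine Nat.pow_le_pow_left ?_ 2
    calc n.factorial ≤ n ^ n := Nat.factorial_le_pow n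
      _ ≤ (12 * n) ^ n := Nat.pow_le_pow_left (by omega) n
      _ ≤ (12 * n) ^ (2 * n) := Nat.pow_le_pow_right (by omega) (by omega)

lemma pow_lt_two {N Q : ℕ} (hN : 1 ≤ N) (h : 9 * Q ^ 2 ≤ N) : (N : ℝ) ^ Q < 2 ^ N := by
  have hN' : (1 : ℝ) ≤ N := by exact_mod_cast hN
  have hN0 : (0 : ℝ) < N := by linarith
  rw [← Real.log_lt_log_iff (by positivity) (by positivity), Real.log_pow, Real.log_pow]
  have h1 := Real.log_le_sub_one_of_pos (Real.sqrt_pos.2 hN0)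
  rw [Real.log_sqrt hN0.le] at h1
  have h2 : 3 * (Q : ℝ) ≤ √(N : ℝ) := by
    refine Real.le_sqrt_of_sq_le ?_
    have : ((9 * Q ^ 2 : ℕ) : ℝ) ≤ N := by exact_mod_cast h
    push_cast at this
    nlinarith
  have h3 := Real.log_two_gt_d9
  have h4 : √(N : ℝ) * √(N : ℝ) = N := Real.mul_self_sqrt hN0.le
  have h5 : 0 < √(N : ℝ) := Real.sqrt_pos.2 hN0
  have h6 : Real.log N ≤ 2 * √(N : ℝ) := by linarith
  have hQ0 : (0 : ℝ) ≤ Q := by positivity
  calc (Q : ℝ) * Real.log N ≤ Q * (2 * √(N : ℝ)) := by gcongr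
    _ = (2 / 3) * (3 * Q * √(N : ℝ)) := by ring
    _ ≤ (2 / 3) * (√(N : ℝ) * √(N : ℝ)) := by gcongr
    _ = (2 / 3) * N := by rw [h4]
    _ < N * Real.log 2 := by nlinarith

lemma poly_ineq {n N : ℕ} (hn : 1 ≤ n) (hN : (12 * n) ^ (4 * n) ≤ N) :
    (N : ℝ) ^ Fintype.card (JJ n) * ((((n.factorial : ℝ) ^ 2 * (N : ℝ) ^ n) ^
      Fintype.card (JJ n)) * ((1 / 2) ^ N * (N : ℝ) ^ n)) < 1 := by
  obtain ⟨h1, h2⟩ := nat_bound2 hn hN
  rw [card_JJ]
  set m := n + (4 * n + 1) ^ n with hm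
  have hN1 : 1 ≤ N := le_trans (Nat.one_le_pow _ _ (by omega)) hN
  have h3 := pow_lt_two hN1 h1
  have h4 : ((n.factorial : ℝ)) ^ 2 ≤ N := by exact_mod_cast h2
  have hN' : (1 : ℝ) ≤ N := by exact_mod_cast hN1
  have e1 : (N : ℝ) ^ m * ((((n.factorial : ℝ) ^ 2 * (N : ℝ) ^ n) ^ m) *
      ((1 / 2) ^ N * (N : ℝ) ^ n)) =
      ((N : ℝ) ^ m * ((n.factorial : ℝ) ^ 2 * (N : ℝ) ^ n) ^ m * (N : ℝ) ^ n) / 2 ^ N := by
    rw [one_div, inv_pow]
    field_simp
  rw [e1, div_lt_one (by positivity)]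
  refine lt_of_le_of_lt ?_ h3
  calc (N : ℝ) ^ m * ((n.factorial : ℝ) ^ 2 * (N : ℝ) ^ n) ^ m * (N : ℝ) ^ n
      ≤ (N : ℝ) ^ m * ((N : ℝ) * (N : ℝ) ^ n) ^ m * (N : ℝ) ^ n := by gcongr
    _ = (N : ℝ) ^ (m * (n + 2) + n) := by
        rw [← pow_succ', ← pow_mul, ← pow_add, ← pow_add]
        congr 1
        ring

lemma exists_radius (N : ℕ) {a : ℝ} (hN : 1 ≤ N) (ha : 0 < a) : ∃ r : ℝ, 0 < r ∧ r ^ N = a :=
  ⟨a ^ ((N : ℝ)⁻¹), by positivity, Real.rpow_inv_natCast_pow ha.le (by omega)⟩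

/-- the cross-polytope of volume one is a centred body -/
lemma cross_body {N : ℕ} (hN : 1 ≤ N) {r : ℝ} (hr : 0 < r)
    (hrN : r ^ N = N.factorial / 2 ^ N) : IsCentredBody N (cross N r) := by
  refine ⟨cross_compact _ _, cross_convex _ _, cross_interior _ hr, ?_, cross_barycenter _ _⟩
  rw [vol_cross _ hN hr.le, hrN]
  have f1 : (N.factorial : ℝ) ≠ 0 := by positivity
  have : (N.factorial : ℝ) / 2 ^ N * (2 ^ N / N.factorial) = 1 := by
    field_simp
  rw [this, ENNReal.ofReal_one]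

theorem main1 {n N : ℕ} (hn : 1 ≤ n) (hN : (12 * n) ^ (4 * n) ≤ N) {r ρ : ℝ} (hr : 0 < r)
    (hρ : 0 < ρ) (hrN : r ^ N = N.factorial / 2 ^ N) (hρN : ρ ^ N = 1 / kap N) :
    n + 1 ≤ N ∧ Phi N n (cross N r) ≠ ⊤ ∧
      ENNReal.ofReal (√(n : ℝ) / 4) * Phi N n (closedBall 0 ρ) < Phi N n (cross N r) := by
  obtain ⟨b1, b2⟩ := nat_bound2 hn hN
  have hm := card_JJ n
  have hpow : 1 ≤ (4 * n + 1) ^ n := Nat.one_le_pow _ _ (by omega)
  have hQ : (n + (4 * n + 1) ^ n) ≤ (n + (4 * n + 1) ^ n) * (n + 2) + n := by nlinarith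
  have hQ1 : 2 ≤ (n + (4 * n + 1) ^ n) * (n + 2) + n := by omega
  set Q := (n + (4 * n + 1) ^ n) * (n + 2) + n with hQdef
  have hQN : 3 * Q ≤ N := by nlinarith
  have hcard : Fintype.card (JJ n) ≤ N := by omega
  have hN3 : 3 ≤ N := by omega
  have hnN : n + 1 ≤ N := by omega
  have hkN := kap_pos N
  have hkn := kap_pos n
  have hn0 : (0 : ℝ) < n := by exact_mod_cast (by omega : 0 < n)
  have hmain := params' hn hN3 (poly_ineq hn hN) hρ hr hrN hρN
  have hup := average_upper' hn (by omega) hcard hr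
  have hlow := average_lower' (N := N) hn (by omega) hρ (subset_refl (closedBall (0 : E N) ρ))
  have hlow' := average_lower' (N := N) hn (by omega) hr (cross_sub_ball N r)
  refine ⟨hnN, ?_, ?_⟩
  · unfold Phi
    rw [ENNReal.rpow_neg]
    refine ENNReal.inv_ne_top.2 ?_
    intro h0
    have hpos : (0 : ℝ) < 1 / ((n : ℝ) * (N : ℝ)) := by
      have : (0 : ℝ) < N := by exact_mod_cast (by omega : 0 < N)
      positivity
    rw [ENNReal.rpow_eq_zero_iff] at h0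
    rcases h0 with h0 | h0
    · rw [h0.1] at hlow'
      have : (0 : ℝ) < ((r ^ n * kap n) ^ N)⁻¹ := by positivity
      exact absurd (ENNReal.ofReal_pos.2 this) (not_lt.2 hlow')
    · linarith [h0.2]
  · unfold Phi
    rw [← Nat.cast_mul]
    refine rpow_compare (Nat.mul_pos (by omega) (by omega)) ?_ ENNReal.ofReal_ne_top ?_
    · exact (ENNReal.ofReal_pos.2 (by positivity)).ne'
    · refine lt_of_le_of_lt (mul_le_mul_right hup _) (lt_of_lt_of_le ?_ hlow)
      rw [← ENNReal.ofReal_pow (by positivity), ← ENNReal.ofReal_mul (by positivity)]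
      exact (ENNReal.ofReal_lt_ofReal_iff (by positivity)).2 hmain

/-- the choice of `n` for given `N` -/
lemma choose_n : ∀ᶠ N : ℕ in atTop, ∃ n : ℕ, 1 ≤ n ∧ (12 * n) ^ (4 * n) ≤ N ∧
    1 / 16 * √(Real.log N / Real.log (Real.log N)) ≤ √(n : ℝ) / 4 := by
  have h1 : ∀ᶠ L : ℝ in atTop, 8 * Real.log L ≤ L := by
    have := Real.isLittleO_log_id_atTop.bound (show (0 : ℝ) < 1 / 8 by norm_num)
    filter_upwards [this, eventually_ge_atTop 1] with L hL hL1
    rw [Real.norm_eq_abs, Real.norm_eq_abs, abs_of_nonneg (Real.log_nonneg hL1), id,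
      abs_of_nonneg (by linarith)] at hL
    linarith
  have h2 : ∀ᶠ L : ℝ in atTop, 3 / 2 ≤ Real.log L := Real.tendsto_log_atTop.eventually_ge_atTop _
  have h3 : Tendsto (fun N : ℕ => Real.log (N : ℝ)) atTop atTop :=
    Real.tendsto_log_atTop.comp tendsto_natCast_atTop_atTop
  filter_upwards [h3.eventually h1, h3.eventually h2, h3.eventually_ge_atTop 1,
    eventually_ge_atTop 1] with N hN1 hN2 hN3 hN4
  set L := Real.log (N : ℝ) with hL
  set l := Real.log L with hl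
  have hl0 : 0 < l := by linarith
  have hL0 : 0 < L := by linarith
  have hx : 1 ≤ L / (8 * l) := by
    rw [le_div_iff₀ (by positivity)]
    linarith
  set n := ⌊L / (8 * l)⌋₊ with hn
  have hn1 : 1 ≤ n := Nat.one_le_floor_iff _ |>.2 hx
  have hn2 : (n : ℝ) ≤ L / (8 * l) := Nat.floor_le (by positivity)
  have hn3 : L / (8 * l) < n + 1 := Nat.lt_floor_add_one _
  have hn1' : (1 : ℝ) ≤ n := by exact_mod_cast hn1
  refine ⟨n, hn1, ?_, ?_⟩
  · have h4 : 12 * (n : ℝ) ≤ L := by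
      calc 12 * (n : ℝ) ≤ 12 * (L / (8 * l)) := by gcongr
        _ = L * (3 / 2 / l) := by field_simp; norm_num
        _ ≤ L * 1 := by
            gcongr
            rw [div_le_one hl0]
            exact hN2
        _ = L := mul_one L
    have h5 : Real.log (12 * (n : ℝ)) ≤ l := Real.log_le_log (by positivity) h4
    have h5' : 0 ≤ Real.log (12 * (n : ℝ)) := Real.log_nonneg (by linarith)
    have h6 : (4 * (n : ℝ)) * Real.log (12 * (n : ℝ)) ≤ L := by
      calc (4 * (n : ℝ)) * Real.log (12 * (n : ℝ)) ≤ (4 * (L / (8 * l))) * l := by gcongr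
        _ = L / 2 := by field_simp; norm_num
        _ ≤ L := by linarith
    have hN0 : (0 : ℝ) < N := by exact_mod_cast (by omega : 0 < N)
    have h7 : ((12 * (n : ℝ)) ^ (4 * n)) ≤ (N : ℝ) := by
      rw [← Real.log_le_log_iff (by positivity) hN0, Real.log_pow]
      push_cast
      exact h6
    exact_mod_cast h7
  · have h8 : L / l ≤ 16 * n := by
      have h9 : L / l = 8 * (L / (8 * l)) := by field_simp
      rw [h9]
      linarith
    calc 1 / 16 * √(L / l) ≤ 1 / 16 * √(16 * (n : ℝ)) := by gcongr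
      _ = √(n : ℝ) / 4 := by
          rw [Real.sqrt_mul (by norm_num), show (16 : ℝ) = 4 ^ 2 by norm_num,
            Real.sqrt_sq (by norm_num)]
          ring

end Pool.Agent.Y330.P
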